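import Pool.Agent.H77.BQ.LayB

/-! Row LAY: existence of layers. -/

set_option autoImplicit false

namespace Pool.Agent.H77.BQ

open MeasureTheory Set Filter Topology Pool.Agent.H79.GT
open Pool.Agent.H44.DU

/-- the ends of the sides -/
theorem lr_pos {n : ℕ} {S : Surf n} {t : ℝ} (hp : T_PART) {s : Side n} {x : ℝ}
    (h : S.InI t s x ∨ S.InJ t s x) : le S t s < x ∧ x < ri S t s := by
  obtain ⟨-, h2, -, -, -⟩ := hp n S t
  exact (h2 s x).1 h

theorem pf_LAY (hM : T_MASS) (hc : T_CH) (hp : T_PART) (he : T_EQV) : T_LAY := by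
  classical
  intro n S t f hLD hInc r L hr hL
  obtain ⟨hdns, hlr, hmass, -, -, -⟩ := he n S t f hLD hInc
  have hsI : Sp S t (S.InI t) := sp_I hp
  have hsJ : Sp S t (S.InJ t) := sp_J hp
  obtain ⟨T, hTm, hTE⟩ := exists_T hsI
  obtain ⟨T', hTm', hTE'⟩ := exists_T hsJ
  have himI : ∀ s x, S.InJ t (S.gl s) (S.mv t s x) ↔ S.InI t s x := fun s x =>
    S.inJ_gl_iff t s x
  have himJ : ∀ s x, S.InI t (S.gl s) (S.mv t s x) ↔ S.InJ t s x := fun s x =>
    S.inI_gl_iff t s x
  have hwm : ∀ i, Measurable (fun x => ENNReal.ofReal (f i x)) := fun i =>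
    (hLD.meas i).ennreal_ofReal
  set μ : Measure (Fin n × ℝ) := mw S t fun i x => ENNReal.ofReal (f i x) with hμ
  have hTμ : MeasurePreserving T μ μ := mp_T hsI hsJ himI hTm hTE f hLD.meas
    (fun s => (f_eq hLD s).mono fun x hx h => hx (Or.inr h))
  have hTμ' : MeasurePreserving T' μ μ := mp_T hsJ hsI himJ hTm' hTE' f hLD.meas
    (fun s => (f_eq hLD s).mono fun x hx h => hx (Or.inl h))
  -- the good points
  set D0 : Set (Fin n × ℝ) := {p | (∃ s : Side n, p.1 = s.1 ∧ S.InI t s p.2) ∧
    ∃ s : Side n, p.1 = s.1 ∧ S.InJ t s p.2} with hD0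
  have hD0m : MeasurableSet D0 := by
    have e : D0 = (⋃ s : Side n, {p : Fin n × ℝ | p.1 = s.1 ∧ S.InI t s p.2}) ∩
        ⋃ s : Side n, {p : Fin n × ℝ | p.1 = s.1 ∧ S.InJ t s p.2} := by
      ext p
      simp only [hD0, Set.mem_inter_iff, Set.mem_iUnion, Set.mem_setOf_eq]
    rw [e]
    exact (MeasurableSet.iUnion fun s => (measurable_fst (measurableSet_singleton s.1)).inter
      (measurable_snd (hsI.meas s))).inter
      (MeasurableSet.iUnion fun s => (measurable_fst (measurableSet_singleton s.1)).inter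
      (measurable_snd (hsJ.meas s)))
  have hback1 : ∀ p ∈ D0, T' (T p) = p := by
    rintro ⟨i, x⟩ ⟨⟨s, hs, hI⟩, -⟩
    have hs' : i = s.1 := hs
    subst hs'
    rw [hTE s x hI, hTE' (S.gl s) (S.mv t s x) ((himI s x).2 hI), S.gl_gl, S.mv_gl]
  have hback2 : ∀ p ∈ D0, T (T' p) = p := by
    rintro ⟨i, x⟩ ⟨-, ⟨s, hs, hJ⟩⟩
    have hs' : i = s.1 := hs
    subst hs'
    rw [hTE' s x hJ, hTE (S.gl s) (S.mv t s x) ((himJ s x).2 hJ), S.gl_gl, S.mv_gl]
  set G : Set (Fin n × ℝ) := {p | ∀ k : ℕ, T^[k] p ∈ D0 ∧ T'^[k] p ∈ D0} with hG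
  have hG0 : ∀ p ∈ G, p ∈ D0 := fun p h => (h 0).1
  have hGT : ∀ p ∈ G, T p ∈ G := by
    intro p h k
    refine ⟨?_, ?_⟩
    · rw [← Function.iterate_succ_apply]
      exact (h (k + 1)).1
    · cases k with
      | zero => exact (h 1).1
      | succ k =>
        rw [Function.iterate_succ_apply, hback1 p (hG0 p h)]
        exact (h k).2
  have hGT' : ∀ p ∈ G, T' p ∈ G := by
    intro p h k
    refine ⟨?_, ?_⟩
    · cases k with
      | zero => exact (h 1).2
      | succ k =>
        rw [Function.iterate_succ_apply, hback2 p (hG0 p h)]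
        exact (h k).1
    · rw [← Function.iterate_succ_apply]
      exact (h (k + 1)).2
  have hD0ae : ∀ i, ∀ᵐ x : ℝ, S.xl t i < x → x < S.xr t i → (i, x) ∈ D0 := by
    intro i
    filter_upwards [hsI.ex i, hsJ.ex i] with x h1 h2 a b
    obtain ⟨s, hs, hsx⟩ := h1 a b
    obtain ⟨s', hs', hsx'⟩ := h2 a b
    exact ⟨⟨s, hs.symm, hsx⟩, ⟨s', hs'.symm, hsx'⟩⟩
  have hGμ : ∀ᵐ p ∂μ, p ∈ G :=
    ae_iter hTμ.quasiMeasurePreserving hTμ'.quasiMeasurePreserving
      (ae_mw _ hwm hD0m hD0ae)
  have hGν : ∀ᵐ p ∂(mw S t fun _ _ => 1), p ∈ G :=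
    ae_iter (qmp_T hsI hsJ himI hTm hTE) (qmp_T hsJ hsI himJ hTm' hTE')
      (ae_mw _ (fun _ => measurable_const) hD0m hD0ae)
  have hGae := fun i => ae_of_mw hGν i
  -- the cutoff data
  have hch0 : ∀ i x, 0 ≤ ch S t i x := fun i => (hc n S t i).2.2.2.2.2.1
  have hchm : ∀ i, Measurable (ch S t i) := fun i => (hc n S t i).2.2.2.2.2.2.2.1
  set τ : Fin n × ℝ → ℝ := fun p => f p.1 p.2 * ch S t p.1 p.2 with hτ
  have hτm : Measurable τ := measurable_from_prod_countable_right fun i =>
    (hLD.meas i).mul (hchm i)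
  have hτ0 : ∀ p, 0 ≤ τ p := fun p => mul_nonneg (hLD.nonneg _ _) (hch0 _ _)
  let K1 : Side n → Set ℝ := fun s => {x | le S t s < x ∧ x < ri S t s ∧
    S.pf t f s.1 x - S.pf t f s.1 (le S t s) ≤ 2 * r}
  let K2 : Side n → Set ℝ := fun s => {x | le S t s < x ∧ x < ri S t s ∧
    S.pf t f s.1 (ri S t s) - S.pf t f s.1 x ≤ 2 * r}
  have hKm : ∀ s, MeasurableSet (K1 s) ∧ MeasurableSet (K2 s) := by
    intro s
    by_cases hs : le S t s < ri S t s
    · exact zone_meas (hdns s hs) (2 * r)
    · have e1 : K1 s = ∅ := by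
        ext x
        simp only [Set.mem_empty_iff_false, iff_false]
        intro h
        exact hs (h.1.trans h.2.1)
      have e2 : K2 s = ∅ := by
        ext x
        simp only [Set.mem_empty_iff_false, iff_false]
        intro h
        exact hs (h.1.trans h.2.1)
      rw [e1, e2]
      exact ⟨MeasurableSet.empty, MeasurableSet.empty⟩
  set Z : Set (Fin n × ℝ) := ⋃ s : Side n,
    {p | p.1 = s.1 ∧ p.2 ∈ {x | S.InJ t s x} ∩ (K1 s ∪ K2 s)} with hZ
  have hZm : MeasurableSet Z := MeasurableSet.iUnion fun s =>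
    (measurable_fst (measurableSet_singleton s.1)).inter
      (measurable_snd ((hsJ.meas s).inter ((hKm s).1.union (hKm s).2)))
  -- the mass of the zone
  have hμZ : μ Z ≤ ENNReal.ofReal (12 * n * r) := by
    rw [← lintegral_indicator_one hZm, hμ, lint_mw S t _ hwm _ (measurable_one.indicator hZm),
      hsJ.split (fun i x => ENNReal.ofReal (f i x) * Z.indicator 1 (i, x))
        (fun i => (hwm i).mul ((measurable_one.indicator hZm).comp measurable_prodMk_left))]
    have hside : ∀ s : Side n, ∫⁻ x in {x | S.InJ t s x},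
        ENNReal.ofReal (f s.1 x) * Z.indicator 1 (s.1, x) ≤ ENNReal.ofReal (4 * r) := by
      intro s
      by_cases hs : le S t s < ri S t s
      · have h1 : ∀ x, S.InJ t s x →
            ENNReal.ofReal (f s.1 x) * Z.indicator 1 (s.1, x) ≤
              (K1 s).indicator (fun x => ENNReal.ofReal (f s.1 x)) x +
                (K2 s).indicator (fun x => ENNReal.ofReal (f s.1 x)) x := by
          intro x hx
          by_cases hxZ : (s.1, x) ∈ Z
          · obtain ⟨s', hs', hJ', hK⟩ := Set.mem_iUnion.1 hxZ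
            have hss : s = s' := S.exit_unique hs' hx hJ'
            subst hss
            rw [Set.indicator_of_mem hxZ, Pi.one_apply, mul_one]
            rcases hK with hK | hK
            · rw [Set.indicator_of_mem (show x ∈ K1 s from hK)]
              exact le_self_add
            · rw [Set.indicator_of_mem (show x ∈ K2 s from hK)]
              exact le_add_self
          · rw [Set.indicator_of_notMem hxZ, mul_zero]
            exact zero_le
        have h2 : ∫⁻ x in {x | S.InJ t s x},
            ENNReal.ofReal (f s.1 x) * Z.indicator 1 (s.1, x) ≤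
            ∫⁻ x, ((K1 s).indicator (fun x => ENNReal.ofReal (f s.1 x)) x +
                (K2 s).indicator (fun x => ENNReal.ofReal (f s.1 x)) x) := by
          refine le_trans (setLIntegral_mono_ae' (hsJ.meas s) (ae_of_all _ fun x hx => h1 x hx))
            (setLIntegral_le_lintegral _ _)
        rw [lintegral_add_left ((hwm s.1).indicator (hKm s).1),
          lintegral_indicator (hKm s).1, lintegral_indicator (hKm s).2] at h2
        have h3 := zone_lo (hdns s hs) (2 * r)
        have h4 := zone_hi (hdns s hs) (2 * r)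
        have h5 : ENNReal.ofReal (4 * r) = ENNReal.ofReal (2 * r) + ENNReal.ofReal (2 * r) := by
          rw [← ENNReal.ofReal_add (by linarith) (by linarith)]
          congr 1
          ring
        rw [h5]
        exact h2.trans (add_le_add h3 h4)
      · have e : {x | S.InJ t s x} = ∅ := by
          ext x
          simp only [Set.mem_setOf_eq, Set.mem_empty_iff_false, iff_false]
          intro h
          have := lr_pos (S := S) hp (Or.inr h)
          exact hs (this.1.trans this.2)
        rw [e, Measure.restrict_empty, lintegral_zero_measure]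
        exact zero_le
    calc ∑ s : Side n, ∫⁻ x in {x | S.InJ t s x},
          ENNReal.ofReal (f s.1 x) * Z.indicator 1 (s.1, x)
        ≤ ∑ _s : Side n, ENNReal.ofReal (4 * r) := Finset.sum_le_sum fun s _ => hside s
      _ = ENNReal.ofReal (12 * n * r) := by
          rw [Finset.sum_const, Finset.card_univ, Fintype.card_prod, Fintype.card_fin,
            Fintype.card_fin, ← ENNReal.ofReal_nsmul]
          congr 1
          rw [nsmul_eq_mul]
          push_cast
          ring
  -- finiteness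
  have hfin : IsFiniteMeasure μ := by
    refine ⟨?_⟩
    rw [← lintegral_one, hμ, lint_mw S t _ hwm _ measurable_const]
    refine ENNReal.sum_lt_top.2 fun i _ => ?_
    simp only [mul_one]
    have hvol : volume (Ioo (S.xl t i) (S.xr t i)) ≠ ⊤ := by
      rw [Real.volume_Ioo]
      exact ENNReal.ofReal_ne_top
    have h1 : IntegrableOn (fun x => 1 + f i x ^ 2) (Ioo (S.xl t i) (S.xr t i)) :=
      (integrableOn_const hvol).add (hLD.sq i)
    have h2 : IntegrableOn (f i) (Ioo (S.xl t i) (S.xr t i)) := by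
      refine Integrable.mono' h1 (hLD.meas i).aestronglyMeasurable (ae_of_all _ fun x => ?_)
      rw [Real.norm_eq_abs, abs_of_nonneg (hLD.nonneg i x)]
      nlinarith [sq_nonneg (f i x - 1), sq_nonneg (f i x)]
    exact h2.lintegral_lt_top
  obtain ⟨Θ, hΘm, hΘ01, hΘZ, hΘG, hΘint⟩ := hM (Fin n × ℝ) μ T T' G hTμ hTμ'
    (fun p h => ⟨hGT p h, hGT' p h, hback1 p (hG0 p h), hback2 p (hG0 p h)⟩) hGμ τ Z L hτm hτ0
    hZm hL
  -- the layer
  let θ : Side n → ℝ → ℝ := fun s x =>
    if xi t (S.Q s) < xi t (S.P s) then Θ (s.1, x)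
    else if xi t (S.P s) < xi t (S.Q s) then Θ ((S.gl s).1, S.mv t s x) else 1
  have hθJ : ∀ s x, S.InJ t s x → θ s x = Θ (s.1, x) := by
    intro s x h
    exact if_pos (h.1.trans h.2)
  have hθI : ∀ s x, S.InI t s x → θ s x = Θ ((S.gl s).1, S.mv t s x) := by
    intro s x h
    have h1 : ¬ xi t (S.Q s) < xi t (S.P s) := not_lt.2 (h.1.trans h.2).le
    show (if xi t (S.Q s) < xi t (S.P s) then Θ (s.1, x)
      else if xi t (S.P s) < xi t (S.Q s) then Θ ((S.gl s).1, S.mv t s x) else 1) = _
    rw [if_neg h1, if_pos (h.1.trans h.2)]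
  have hcase : ∀ s x, le S t s < x → x < ri S t s → S.InI t s x ∨ S.InJ t s x := by
    intro s x h1 h2
    obtain ⟨-, h3, -, -, -⟩ := hp n S t
    exact (h3 s x).2 ⟨h1, h2⟩
  have hθm : ∀ s, Measurable (θ s) := by
    intro s
    show Measurable fun x => (if xi t (S.Q s) < xi t (S.P s) then Θ (s.1, x)
      else if xi t (S.P s) < xi t (S.Q s) then Θ ((S.gl s).1, S.mv t s x) else 1)
    split_ifs
    · exact hΘm.comp measurable_prodMk_left
    · exact hΘm.comp (measurable_const.prodMk (measurable_mv s))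
    · exact measurable_const
  refine ⟨θ, ⟨hθm, ?_, ?_, ?_, ?_, ?_⟩, ?_⟩
  · intro s x
    show 0 ≤ (if xi t (S.Q s) < xi t (S.P s) then Θ (s.1, x)
      else if xi t (S.P s) < xi t (S.Q s) then Θ ((S.gl s).1, S.mv t s x) else 1)
    split_ifs
    · exact (hΘ01 _).1
    · exact (hΘ01 _).1
    · exact zero_le_one
  · intro s x
    show (if xi t (S.Q s) < xi t (S.P s) then Θ (s.1, x)
      else if xi t (S.P s) < xi t (S.Q s) then Θ ((S.gl s).1, S.mv t s x) else 1) ≤ 1
    split_ifs
    · exact (hΘ01 _).2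
    · exact (hΘ01 _).2
    · exact le_rfl
  · -- glue
    intro s x h1 h2
    rcases hcase s x h1 h2 with h | h
    · rw [hθI s x h, hθJ _ _ ((himI s x).2 h)]
    · rw [hθJ s x h, hθI _ _ ((himJ s x).2 h), S.gl_gl, S.mv_gl]
  · -- zone
    intro s x h1 h2 hz
    rcases hcase s x h1 h2 with h | h
    · rw [hθI s x h]
      refine hΘZ _ (Set.mem_iUnion.2 ⟨S.gl s, rfl, (himI s x).2 h, ?_⟩)
      have e1 : le S t (S.gl s) = S.mv t s (le S t s) := (hlr s).1
      have e2 : ri S t (S.gl s) = S.mv t s (ri S t s) := (hlr s).2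
      have m1 : S.mv t s (le S t s) < S.mv t s x := (S.mv_lt_iff t s).2 h1
      have m2 : S.mv t s x < S.mv t s (ri S t s) := (S.mv_lt_iff t s).2 h2
      rcases hz with hz | hz
      · left
        refine ⟨by rw [e1]; exact m1, by rw [e2]; exact m2, ?_⟩
        rw [e1, hmass s _ _ le_rfl h1.le h2.le]
        exact hz
      · right
        refine ⟨by rw [e1]; exact m1, by rw [e2]; exact m2, ?_⟩
        rw [e2, hmass s _ _ h1.le h2.le le_rfl]
        exact hz
    · rw [hθJ s x h]
      refine hΘZ _ (Set.mem_iUnion.2 ⟨s, rfl, h, ?_⟩)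
      rcases hz with hz | hz
      · exact Or.inl ⟨h1, h2, hz⟩
      · exact Or.inr ⟨h1, h2, hz⟩
  · -- step
    intro s s' hss
    filter_upwards [hGae s.1] with x hx hI hJ
    have hx' := hsI.sub s x hI
    have hxG := hx hx'.1 hx'.2
    have h1 := hΘG _ hxG
    rw [hθI s x hI, hθJ s' x hJ, ← hTE s x hI, ← hss]
    exact h1
  · -- the integral
    have hB : MeasurableSet {p : Fin n × ℝ | Θ p < 1 ∨ Θ (T p) < 1} :=
      (measurableSet_lt hΘm measurable_const).union
        (measurableSet_lt (hΘm.comp hTm) measurable_const)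
    set B : Set (Fin n × ℝ) := {p : Fin n × ℝ | Θ p < 1 ∨ Θ (T p) < 1} with hBdef
    have hg : Measurable fun p : Fin n × ℝ => ENNReal.ofReal (min (τ p) L) :=
      (hτm.min measurable_const).ennreal_ofReal
    rw [← lintegral_indicator hB, hμ,
      lint_mw S t _ hwm _ (hg.indicator hB), ← hμ] at hΘint
    have hEs : ∀ i x, x ∈ Es S t θ i → (i, x) ∈ B := by
      rintro i x ⟨s, hs, hs2, hs3⟩
      subst hs
      rcases hs2 with h | h
      · right
        rw [hTE s x h, ← hθI s x h]
        exact hs3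
      · left
        rw [← hθJ s x h]
        exact hs3
    have hint : ∀ i, ENNReal.ofReal (∫ x in Ioo (S.xl t i) (S.xr t i) ∩ Es S t θ i,
        min (f i x * ch S t i x) L * f i x) ≤
        ∫⁻ x in Ioo (S.xl t i) (S.xr t i), ENNReal.ofReal (f i x) *
          B.indicator (fun p => ENNReal.ofReal (min (τ p) L)) (i, x) := by
      intro i
      have hnn : ∀ x, 0 ≤ min (f i x * ch S t i x) L * f i x := fun x =>
        mul_nonneg (le_min (mul_nonneg (hLD.nonneg i x) (hch0 i x)) hL.le) (hLD.nonneg i x)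
      have hmm : Measurable fun x => min (f i x * ch S t i x) L * f i x :=
        (((hLD.meas i).mul (hchm i)).min measurable_const).mul (hLD.meas i)
      rw [integral_eq_lintegral_of_nonneg_ae (ae_of_all _ hnn) hmm.aestronglyMeasurable]
      refine le_trans ENNReal.ofReal_toReal_le ?_
      have hBi : MeasurableSet {x : ℝ | (i, x) ∈ B} := measurable_prodMk_left hB
      calc ∫⁻ x in Ioo (S.xl t i) (S.xr t i) ∩ Es S t θ i,
            ENNReal.ofReal (min (f i x * ch S t i x) L * f i x)
          ≤ ∫⁻ x in Ioo (S.xl t i) (S.xr t i) ∩ {x : ℝ | (i, x) ∈ B},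
            ENNReal.ofReal (min (f i x * ch S t i x) L * f i x) :=
            lintegral_mono_set (Set.inter_subset_inter_right _ (fun x hx => hEs i x hx))
        _ = ∫⁻ x in Ioo (S.xl t i) (S.xr t i), ({x : ℝ | (i, x) ∈ B}.indicator
            (fun x => ENNReal.ofReal (min (f i x * ch S t i x) L * f i x))) x := by
            rw [lintegral_indicator hBi, Measure.restrict_restrict hBi, Set.inter_comm]
        _ = ∫⁻ x in Ioo (S.xl t i) (S.xr t i), ENNReal.ofReal (f i x) *
            B.indicator (fun p => ENNReal.ofReal (min (τ p) L)) (i, x) := by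
            refine lintegral_congr fun x => ?_
            by_cases hx : (i, x) ∈ B
            · rw [Set.indicator_of_mem (show x ∈ {x : ℝ | (i, x) ∈ B} from hx),
                Set.indicator_of_mem hx, mul_comm,
                ENNReal.ofReal_mul (hLD.nonneg i x)]
            · rw [Set.indicator_of_notMem (show x ∉ {x : ℝ | (i, x) ∈ B} from hx),
                Set.indicator_of_notMem hx, mul_zero]
    have hnn2 : ∀ i, 0 ≤ ∫ x in Ioo (S.xl t i) (S.xr t i) ∩ Es S t θ i,
        min (f i x * ch S t i x) L * f i x := fun i => integral_nonneg fun x =>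
        mul_nonneg (le_min (mul_nonneg (hLD.nonneg i x) (hch0 i x)) hL.le) (hLD.nonneg i x)
    have hn0 : (0 : ℝ) ≤ n := Nat.cast_nonneg n
    have hfinal : ENNReal.ofReal (∑ i : Fin n, ∫ x in Ioo (S.xl t i) (S.xr t i) ∩ Es S t θ i,
        min (f i x * ch S t i x) L * f i x) ≤ ENNReal.ofReal (100 * n * L * r) := by
      rw [ENNReal.ofReal_sum_of_nonneg fun i _ => hnn2 i]
      calc ∑ i : Fin n, ENNReal.ofReal (∫ x in Ioo (S.xl t i) (S.xr t i) ∩ Es S t θ i,
            min (f i x * ch S t i x) L * f i x)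
          ≤ ∑ i : Fin n, ∫⁻ x in Ioo (S.xl t i) (S.xr t i), ENNReal.ofReal (f i x) *
            B.indicator (fun p => ENNReal.ofReal (min (τ p) L)) (i, x) :=
            Finset.sum_le_sum fun i _ => hint i
        _ ≤ ENNReal.ofReal (8 * L) * μ Z := hΘint
        _ ≤ ENNReal.ofReal (8 * L) * ENNReal.ofReal (12 * n * r) :=
            mul_le_mul_right hμZ _
        _ = ENNReal.ofReal (8 * L * (12 * n * r)) :=
            (ENNReal.ofReal_mul (by linarith)).symm
        _ ≤ ENNReal.ofReal (100 * n * L * r) := by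
            refine ENNReal.ofReal_le_ofReal ?_
            have : 0 ≤ (n : ℝ) * L * r := by positivity
            nlinarith
    exact (ENNReal.ofReal_le_ofReal_iff (by positivity)).1 hfinal

end Pool.Agent.H77.BQ
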