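import Pool.Agent.H79.GT.Targets

/-! Row ZON: the averages of the layers vanish near the ends of the sides. -/

set_option autoImplicit false

namespace Pool.Agent.H77.BQ

open MeasureTheory Set Filter Topology Pool.Agent.H79.GT
open Pool.Agent.H44.DU

theorem dns_mono {f p : ℝ → ℝ} {l u : ℝ} (h : Dns f p l u) {x y : ℝ} (hx : l ≤ x) (hxy : x ≤ y)
    (hy : y ≤ u) : p x ≤ p y := by
  rcases hxy.lt_or_eq with e | e
  · exact (h.inc x y hx e hy).le
  · rw [e]

theorem pf_ZON (h : T_RAD) (hs : T_SAME) (he : T_EQV) (hp : T_PART) : T_ZON := by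
  intro n S t f hLD hInc r hr
  obtain ⟨hdns, -, -, -, -, -⟩ := he n S t f hLD hInc
  obtain ⟨-, hpart, -, -, -⟩ := hp n S t
  constructor
  · intro L θ hL hLay s x hx1 hx2 hzn
    have hD := hdns s (hx1.trans hx2)
    obtain ⟨r1, r2, -, -⟩ := h _ _ _ _ hD r hr
    obtain ⟨a1, a2, a3, a4⟩ := r1 x hx1.le hx2.le
    have a5 := r2 x hx1 hx2
    have hR : Rd S t f r s x = rad (S.pf t f s.1) (le S t s) (ri S t s) r x := rfl
    set p := S.pf t f s.1 with hpdef
    set l := le S t s with hldef
    set u := ri S t s with hudef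
    set R := rad p l u r x with hRdef
    unfold av
    have hzero : ∀ v ∈ Ioo (-1 : ℝ) 1,
        ((1 - |v| : ℝ) : ℂ) * ((θ s (x + Rd S t f r s x / 2 * v) : ℝ) : ℂ) = 0 := by
      intro v hv
      rw [hR]
      have hy1 : x - R < x + R / 2 * v := by nlinarith [hv.1]
      have hy2 : x + R / 2 * v < x + R := by nlinarith [hv.2]
      have hyl : l < x + R / 2 * v := lt_of_le_of_lt a2 hy1
      have hyu : x + R / 2 * v < u := lt_of_lt_of_le hy2 a3
      have hz : Zn p l u (2 * r) (x + R / 2 * v) := by
        rcases hzn with e | e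
        · left
          have b1 := dns_mono hD hyl.le hy2.le a3
          have b2 := dns_mono hD a2 (by linarith : x - R ≤ x) hx2.le
          linarith
        · right
          have b1 := dns_mono hD a2 hy1.le hyu.le
          have b2 := dns_mono hD hx1.le (by linarith : x ≤ x + R) a3
          linarith
      rw [hLay.zone s _ hyl hyu hz]
      simp
    rw [setIntegral_congr_fun measurableSet_Ioo hzero]
    simp
  · intro s s' hss x hI hJ hz hz'
    have hx := (hpart s x).1 (Or.inl hI)
    have hx' := (hpart s' x).1 (Or.inr hJ)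
    have hD := hdns s (hx.1.trans hx.2)
    have hD' := hdns s' (hx'.1.trans hx'.2)
    unfold Rd
    rw [← hss] at hD' hz' ⊢
    exact hs _ _ _ _ _ _ _ hD hD' r hr x hx.1 hx.2 hx'.1 hx'.2 hz hz'

end Pool.Agent.H77.BQ
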