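import Pool.Agent.H79.GT.Targets

/-! Row LAY, part A: the measure on the leaves and the first return maps. -/

set_option autoImplicit false

namespace Pool.Agent.H77.BQ

open MeasureTheory Set Filter Topology Pool.Agent.H79.GT
open Pool.Agent.H44.DU

section
variable {n : ℕ} (S : Surf n) (t : ℝ)

/-- the measure with the density `w` -/
noncomputable def mw (w : Fin n → ℝ → ENNReal) : Measure (Fin n × ℝ) :=
  Measure.sum fun i => Measure.map (fun x : ℝ => (i, x))
    ((volume.restrict (Ioo (S.xl t i) (S.xr t i))).withDensity (w i))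

theorem lint_mw (w : Fin n → ℝ → ENNReal) (hw : ∀ i, Measurable (w i))
    (g : Fin n × ℝ → ENNReal) (hg : Measurable g) :
    ∫⁻ p, g p ∂(mw S t w) = ∑ i, ∫⁻ x in Ioo (S.xl t i) (S.xr t i), w i x * g (i, x) := by
  unfold mw
  rw [lintegral_sum_measure, tsum_fintype]
  refine Finset.sum_congr rfl fun i _ => ?_
  rw [lintegral_map hg measurable_prodMk_left]
  exact lintegral_withDensity_eq_lintegral_mul (volume.restrict (Ioo (S.xl t i) (S.xr t i)))
    (hw i) (g := fun x => g (i, x)) (hg.comp measurable_prodMk_left)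

/-- a partition of the triangles by sides -/
structure Sp (A : Side n → ℝ → Prop) : Prop where
  meas : ∀ s, MeasurableSet {x | A s x}
  uniq : ∀ s s' x, s.1 = s'.1 → A s x → A s' x → s = s'
  sub : ∀ s x, A s x → S.xl t s.1 < x ∧ x < S.xr t s.1
  ex : ∀ i, ∀ᵐ x : ℝ, S.xl t i < x → x < S.xr t i → ∃ s : Side n, s.1 = i ∧ A s x

variable {S t}

theorem Sp.split {A : Side n → ℝ → Prop} (hA : Sp S t A) (F : Fin n → ℝ → ENNReal)
    (hF : ∀ i, Measurable (F i)) :
    ∑ i, ∫⁻ x in Ioo (S.xl t i) (S.xr t i), F i x =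
      ∑ s : Side n, ∫⁻ x in {x | A s x}, F s.1 x := by
  rw [Fintype.sum_prod_type]
  refine Finset.sum_congr rfl fun i _ => ?_
  have h1 : ∀ k : Fin 3, ∫⁻ x in {x | A (i, k) x}, F i x =
      ∫⁻ x, ({x | A (i, k) x}.indicator (F i)) x := fun k =>
    (lintegral_indicator (hA.meas (i, k)) (F i)).symm
  show _ = ∑ k : Fin 3, ∫⁻ x in {x | A (i, k) x}, F i x
  rw [Finset.sum_congr rfl (fun k _ => h1 k),
    ← lintegral_finsetSum _ (fun k _ => (hF i).indicator (hA.meas (i, k))),
    ← lintegral_indicator measurableSet_Ioo]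
  refine lintegral_congr_ae ?_
  filter_upwards [hA.ex i] with x hx
  by_cases hxi : x ∈ Ioo (S.xl t i) (S.xr t i)
  · obtain ⟨s, hs, hsx⟩ := hx hxi.1 hxi.2
    rw [Set.indicator_of_mem hxi, Finset.sum_eq_single s.2]
    · have e : (i, s.2) = s := by rw [← hs]
      have hm : x ∈ {x | A (i, s.2) x} := by
        show A (i, s.2) x
        rw [e]
        exact hsx
      rw [Set.indicator_of_mem hm]
    · intro k _ hk
      refine Set.indicator_of_notMem ?_ _
      intro hkx
      exact hk (congrArg Prod.snd (hA.uniq (i, k) s x hs.symm hkx hsx))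
    · intro h
      exact absurd (Finset.mem_univ _) h
  · rw [Set.indicator_of_notMem hxi]
    symm
    refine Finset.sum_eq_zero fun k _ => Set.indicator_of_notMem ?_ _
    intro hkx
    exact hxi (hA.sub (i, k) x hkx)

theorem measurable_mv (s : Side n) : Measurable (S.mv t s) := by
  unfold Surf.mv
  fun_prop

/-- the change of variables -/
theorem subst_mv (s : Side n) (A A' : Set ℝ) (hA : MeasurableSet A)
    (hA' : ∀ y, y ∈ A' ↔ S.mv t (S.gl s) y ∈ A) (g : ℝ → ENNReal) :
    ∫⁻ y in A', g y = ∫⁻ x in A, ENNReal.ofReal (S.a s) * g (S.mv t s x) := by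
  have him : A' = S.mv t s '' A := by
    ext y
    rw [hA' y]
    constructor
    · intro h
      exact ⟨_, h, S.mv_gl' t s y⟩
    · rintro ⟨x, hx, rfl⟩
      rw [S.mv_gl]
      exact hx
  rw [him]
  have hd : ∀ x ∈ A, HasDerivWithinAt (S.mv t s) (S.a s) A x := by
    intro x _
    have h1 : HasDerivAt (fun x : ℝ => S.a s * x + xi t (S.b s)) (S.a s * 1) x :=
      ((hasDerivAt_id x).const_mul (S.a s)).add_const _
    rw [mul_one] at h1
    exact h1.hasDerivWithinAt
  rw [lintegral_image_eq_lintegral_abs_deriv_mul hA hd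
    (fun x _ y _ h => S.mv_inj t s h)]
  rw [abs_of_pos (S.a_pos s)]

theorem ae_mv (s : Side n) {P : ℝ → Prop} (h : ∀ᵐ y : ℝ, P y) : ∀ᵐ x : ℝ, P (S.mv t s x) := by
  have hN : volume {y | ¬ P y} = 0 := h
  have e : {x | ¬ P (S.mv t s x)} =
      (fun x => S.a s * x) ⁻¹' ((fun x => x + xi t (S.b s)) ⁻¹' {y | ¬ P y}) := rfl
  show volume {x | ¬ P (S.mv t s x)} = 0
  rw [e, Real.volume_preimage_mul_left (S.a_pos s).ne', measure_preimage_add_right, hN, mul_zero]

/-- the push forward of the measure -/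
theorem push {A A' : Side n → ℝ → Prop} (hA : Sp S t A) (hA' : Sp S t A')
    (him : ∀ s x, A' (S.gl s) (S.mv t s x) ↔ A s x) {T : Fin n × ℝ → Fin n × ℝ}
    (hT : Measurable T) (hTE : ∀ s x, A s x → T (s.1, x) = ((S.gl s).1, S.mv t s x))
    (w : Fin n → ℝ → ENNReal) (hw : ∀ i, Measurable (w i)) (g : Fin n × ℝ → ENNReal)
    (hg : Measurable g) :
    ∫⁻ p, g (T p) ∂(mw S t w) = ∑ s : Side n, ∫⁻ y in {y | A' s y},
      ENNReal.ofReal (S.a s) * (w (S.gl s).1 (S.mv t s y) * g (s.1, y)) := by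
  rw [lint_mw S t w hw (fun p => g (T p)) (hg.comp hT),
    hA.split (fun i x => w i x * g (T (i, x)))
      (fun i => (hw i).mul ((hg.comp hT).comp measurable_prodMk_left))]
  let e : Side n ≃ Side n := Function.Involutive.toPerm S.gl S.gl_gl
  rw [← Equiv.sum_comp e]
  refine Finset.sum_congr rfl fun s _ => ?_
  show ∫⁻ x in {x | A (S.gl s) x}, w (S.gl s).1 x * g (T ((S.gl s).1, x)) = _
  have h1 : ∫⁻ x in {x | A (S.gl s) x}, w (S.gl s).1 x * g (T ((S.gl s).1, x)) =
      ∫⁻ x in {x | A (S.gl s) x}, w (S.gl s).1 x * g (s.1, S.mv t (S.gl s) x) := by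
    refine setLIntegral_congr_fun (hA.meas _) ?_
    intro x hx
    show w (S.gl s).1 x * g (T ((S.gl s).1, x)) = w (S.gl s).1 x * g (s.1, S.mv t (S.gl s) x)
    rw [hTE (S.gl s) x hx, S.gl_gl]
  rw [h1, subst_mv s {y | A' s y} {x | A (S.gl s) x} (hA'.meas s) ?_]
  · refine setLIntegral_congr_fun (hA'.meas s) ?_
    intro y _
    show ENNReal.ofReal (S.a s) * (w (S.gl s).1 (S.mv t s y) *
      g (s.1, S.mv t (S.gl s) (S.mv t s y))) = _
    rw [S.mv_gl]
  · intro x
    show A (S.gl s) x ↔ A' s (S.mv t (S.gl s) x)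
    rw [← him (S.gl s) x, S.gl_gl]

/-- piecewise maps -/
theorem pw_exists {Ω σ : Type} [MeasurableSpace Ω] [Fintype σ] (E : σ → Set Ω)
    (hE : ∀ s, MeasurableSet (E s)) (hdis : ∀ s s' p, p ∈ E s → p ∈ E s' → s = s')
    (φ : σ → Ω → Ω) (hφ : ∀ s, Measurable (φ s)) :
    ∃ T : Ω → Ω, Measurable T ∧ (∀ s, ∀ p ∈ E s, T p = φ s p) := by
  classical
  have hval : ∀ s, ∀ p ∈ E s,
      (if h : ∃ s, p ∈ E s then φ h.choose p else p) = φ s p := by
    intro s p hp
    have hex : ∃ s, p ∈ E s := ⟨s, hp⟩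
    rw [dif_pos hex, hdis _ _ p hex.choose_spec hp]
  refine ⟨fun p => if h : ∃ s, p ∈ E s then φ h.choose p else p, ?_, hval⟩
  intro A hA
  have e : (fun p => if h : ∃ s, p ∈ E s then φ h.choose p else p) ⁻¹' A =
      (⋃ s, E s ∩ φ s ⁻¹' A) ∪ ((⋃ s, E s)ᶜ ∩ A) := by
    ext p
    by_cases hp : ∃ s, p ∈ E s
    · obtain ⟨s, hs⟩ := hp
      constructor
      · intro h
        refine Or.inl (Set.mem_iUnion.2 ⟨s, hs, ?_⟩)
        show φ s p ∈ A
        rw [← hval s p hs]
        exact h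
      · rintro (h | h)
        · obtain ⟨s', hs', hA'⟩ := Set.mem_iUnion.1 h
          show (if h : ∃ s, p ∈ E s then φ h.choose p else p) ∈ A
          rw [hval s' p hs']
          exact hA'
        · exact absurd (Set.mem_iUnion.2 ⟨s, hs⟩) h.1
    · have h0 : (if h : ∃ s, p ∈ E s then φ h.choose p else p) = p := dif_neg hp
      constructor
      · intro h
        refine Or.inr ⟨fun h' => hp (Set.mem_iUnion.1 h'), ?_⟩
        have h' : (if h : ∃ s, p ∈ E s then φ h.choose p else p) ∈ A := h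
        rw [h0] at h'
        exact h'
      · rintro (h | h)
        · obtain ⟨s', hs', _⟩ := Set.mem_iUnion.1 h
          exact absurd ⟨s', hs'⟩ hp
        · show (if h : ∃ s, p ∈ E s then φ h.choose p else p) ∈ A
          rw [h0]
          exact h.2
  rw [e]
  refine (MeasurableSet.iUnion fun s => (hE s).inter (hφ s hA)).union
    ((MeasurableSet.iUnion hE).compl.inter hA)

/-- the return map of a partition -/
theorem exists_T {A : Side n → ℝ → Prop} (hA : Sp S t A) :
    ∃ T : Fin n × ℝ → Fin n × ℝ, Measurable T ∧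
      ∀ s x, A s x → T (s.1, x) = ((S.gl s).1, S.mv t s x) := by
  obtain ⟨T, hT, hTE⟩ := pw_exists (σ := Side n)
    (fun s => {p : Fin n × ℝ | p.1 = s.1 ∧ A s p.2})
    (fun s => (measurable_fst (measurableSet_singleton s.1)).inter
      (measurable_snd (hA.meas s)))
    (fun s s' p h h' => hA.uniq s s' p.2 (h.1.symm.trans h'.1) h.2 h'.2)
    (fun s p => ((S.gl s).1, S.mv t s p.2))
    (fun s => measurable_const.prodMk ((measurable_mv s).comp measurable_snd))
  exact ⟨T, hT, fun s x h => hTE s (s.1, x) ⟨rfl, h⟩⟩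

/-- the return map preserves the measure -/
theorem mp_T {A A' : Side n → ℝ → Prop} (hA : Sp S t A) (hA' : Sp S t A')
    (him : ∀ s x, A' (S.gl s) (S.mv t s x) ↔ A s x) {T : Fin n × ℝ → Fin n × ℝ}
    (hT : Measurable T) (hTE : ∀ s x, A s x → T (s.1, x) = ((S.gl s).1, S.mv t s x))
    (f : Fin n → ℝ → ℝ) (hf : ∀ i, Measurable (f i))
    (hfe : ∀ s, ∀ᵐ x : ℝ, A' s x → f s.1 x = S.a s * f (S.gl s).1 (S.mv t s x)) :
    MeasurePreserving T (mw S t fun i x => ENNReal.ofReal (f i x))
      (mw S t fun i x => ENNReal.ofReal (f i x)) := by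
  refine ⟨hT, ?_⟩
  have hw : ∀ i, Measurable (fun x => ENNReal.ofReal (f i x)) := fun i => (hf i).ennreal_ofReal
  refine Measure.ext fun B hB => ?_
  have h1 : Measure.map T (mw S t fun i x => ENNReal.ofReal (f i x)) B =
      ∫⁻ p, B.indicator 1 (T p) ∂(mw S t fun i x => ENNReal.ofReal (f i x)) := by
    rw [Measure.map_apply hT hB, ← lintegral_indicator_one (hT hB)]
    rfl
  rw [h1, push hA hA' him hT hTE _ hw _ (measurable_one.indicator hB),
    ← lintegral_indicator_one hB, lint_mw S t _ hw _ (measurable_one.indicator hB),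
    hA'.split (fun i x => ENNReal.ofReal (f i x) * B.indicator 1 (i, x))
      (fun i => (hw i).mul ((measurable_one.indicator hB).comp measurable_prodMk_left))]
  refine Finset.sum_congr rfl fun s _ => ?_
  refine setLIntegral_congr_fun_ae (hA'.meas s) ?_
  filter_upwards [hfe s] with y hy hyA
  rw [hy hyA, ENNReal.ofReal_mul (S.a_pos s).le, mul_assoc]

/-- the return map is nonsingular -/
theorem qmp_T {A A' : Side n → ℝ → Prop} (hA : Sp S t A) (hA' : Sp S t A')
    (him : ∀ s x, A' (S.gl s) (S.mv t s x) ↔ A s x) {T : Fin n × ℝ → Fin n × ℝ}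
    (hT : Measurable T) (hTE : ∀ s x, A s x → T (s.1, x) = ((S.gl s).1, S.mv t s x)) :
    Measure.QuasiMeasurePreserving T (mw S t fun _ _ => 1) (mw S t fun _ _ => 1) := by
  refine ⟨hT, ?_⟩
  refine Measure.AbsolutelyContinuous.mk fun B hB h0 => ?_
  have h1 : Measure.map T (mw S t fun _ _ => 1) B =
      ∫⁻ p, B.indicator 1 (T p) ∂(mw S t fun _ _ => 1) := by
    rw [Measure.map_apply hT hB, ← lintegral_indicator_one (hT hB)]
    rfl
  rw [h1, push hA hA' him hT hTE _ (fun _ => measurable_const) _ (measurable_one.indicator hB)]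
  rw [← lintegral_indicator_one hB,
    lint_mw S t _ (fun _ => measurable_const) _ (measurable_one.indicator hB),
    hA'.split (fun i x => 1 * B.indicator 1 (i, x))
      (fun i => measurable_const.mul
        ((measurable_one.indicator hB).comp measurable_prodMk_left))] at h0
  refine Finset.sum_eq_zero fun s hs => ?_
  have h2 : ∫⁻ y in {y | A' s y}, 1 * B.indicator 1 (s.1, y) = 0 := by
    have := (Finset.sum_eq_zero_iff.1 h0) s hs
    exact this
  have hm : Measurable (fun y : ℝ =>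
      (1 : ENNReal) * B.indicator (1 : Fin n × ℝ → ENNReal) (s.1, y)) :=
    measurable_const.mul ((measurable_one.indicator hB).comp measurable_prodMk_left)
  rw [lintegral_const_mul _ hm, h2, mul_zero]

end

end Pool.Agent.H77.BQ
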