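import Pool.Agent.H77.BQ.LayA

/-! Row LAY, part B: the zones and the good points. -/

set_option autoImplicit false

namespace Pool.Agent.H77.BQ

open MeasureTheory Set Filter Topology Pool.Agent.H79.GT
open Pool.Agent.H44.DU

theorem dnsm {f p : ℝ → ℝ} {l u : ℝ} (h : Dns f p l u) {x y : ℝ} (hx : l ≤ x) (hxy : x ≤ y)
    (hy : y ≤ u) : p x ≤ p y := by
  rcases hxy.lt_or_eq with e | e
  · exact (h.inc x y hx e hy).le
  · rw [e]

theorem dns_int {f p : ℝ → ℝ} {l u : ℝ} (h : Dns f p l u) : IntegrableOn f (Ioo l u) := by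
  have hfin : volume (Ioo l u) ≠ ⊤ := by
    rw [Real.volume_Ioo]
    exact ENNReal.ofReal_ne_top
  have h1 : IntegrableOn (fun x => 1 + f x ^ 2) (Ioo l u) :=
    (integrableOn_const hfin).add h.sq
  refine Integrable.mono' h1 h.meas.aestronglyMeasurable (ae_of_all _ fun x => ?_)
  rw [Real.norm_eq_abs, abs_of_nonneg (h.nonneg x)]
  nlinarith [sq_nonneg (f x - 1), sq_nonneg (f x)]

theorem dns_lint {f p : ℝ → ℝ} {l u : ℝ} (h : Dns f p l u) {x y : ℝ} (hx : l ≤ x) (hxy : x ≤ y)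
    (hy : y ≤ u) : ∫⁻ z in Ioo x y, ENNReal.ofReal (f z) = ENNReal.ofReal (p y - p x) := by
  rw [h.mass x y hx hxy hy]
  symm
  refine ofReal_integral_eq_lintegral_ofReal ?_ (ae_of_all _ h.nonneg)
  exact (dns_int h).mono_set (Ioo_subset_Ioo hx hy)

/-- the mass of the lower zone -/
theorem zone_lo {f p : ℝ → ℝ} {l u : ℝ} (h : Dns f p l u) (c : ℝ) :
    ∫⁻ x in {x | l < x ∧ x < u ∧ p x - p l ≤ c}, ENNReal.ofReal (f x) ≤ ENNReal.ofReal c := by
  set A : Set ℝ := {x | l < x ∧ x < u ∧ p x - p l ≤ c} with hA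
  have hdown : ∀ b ∈ A, ∀ x, l < x → x ≤ b → x ∈ A := by
    rintro b ⟨hb1, hb2, hb3⟩ x hx hxb
    exact ⟨hx, lt_of_le_of_lt hxb hb2, by linarith [dnsm h hx.le hxb hb2.le]⟩
  set M : Set ℝ := {m | m ∈ A ∧ ∀ a ∈ A, a ≤ m} with hMdef
  have hM : M.Subsingleton := fun a ha b hb => le_antisymm (hb.2 a ha.1) (ha.2 b hb.1)
  set Q : Set ℚ := {q | (q : ℝ) ∈ A} with hQ
  have hsub : A ⊆ M ∪ ⋃ q ∈ Q, Ioo l (q : ℝ) := by
    intro x hx
    by_cases hm : ∀ a ∈ A, a ≤ x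
    · exact Or.inl ⟨hx, hm⟩
    · push Not at hm
      obtain ⟨a, ha, hxa⟩ := hm
      obtain ⟨q, hq1, hq2⟩ := exists_rat_btwn hxa
      refine Or.inr (Set.mem_biUnion (x := q) ?_ ⟨hx.1, hq1⟩)
      exact hdown a ha _ (hx.1.trans hq1) hq2.le
  set m : Measure ℝ := volume.withDensity (fun x => ENNReal.ofReal (f x)) with hm
  have hmM : m M = 0 := by
    have h0 : volume M = 0 := hM.measure_zero volume
    exact withDensity_absolutelyContinuous _ _ h0
  have hmQ : m (⋃ q ∈ Q, Ioo l (q : ℝ)) ≤ ENNReal.ofReal c := by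
    rw [measure_biUnion_eq_iSup (Set.to_countable Q)]
    · refine iSup₂_le fun q hq => ?_
      rw [hm, withDensity_apply _ measurableSet_Ioo,
        dns_lint h le_rfl (show l ≤ (q : ℝ) from hq.1.le) hq.2.1.le]
      exact ENNReal.ofReal_le_ofReal hq.2.2
    · intro q hq q' hq'
      refine ⟨max q q', ?_, ?_, ?_⟩
      · rcases max_cases q q' with e | e
        · rw [e.1]; exact hq
        · rw [e.1]; exact hq'
      · exact Ioo_subset_Ioo_right (by exact_mod_cast le_max_left q q')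
      · exact Ioo_subset_Ioo_right (by exact_mod_cast le_max_right q q')
  calc ∫⁻ x in A, ENNReal.ofReal (f x) ≤ m A := withDensity_apply_le _ _
    _ ≤ m (M ∪ ⋃ q ∈ Q, Ioo l (q : ℝ)) := measure_mono hsub
    _ ≤ m M + m (⋃ q ∈ Q, Ioo l (q : ℝ)) := measure_union_le _ _
    _ ≤ ENNReal.ofReal c := by rw [hmM, zero_add]; exact hmQ

/-- the mass of the upper zone -/
theorem zone_hi {f p : ℝ → ℝ} {l u : ℝ} (h : Dns f p l u) (c : ℝ) :
    ∫⁻ x in {x | l < x ∧ x < u ∧ p u - p x ≤ c}, ENNReal.ofReal (f x) ≤ ENNReal.ofReal c := by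
  set A : Set ℝ := {x | l < x ∧ x < u ∧ p u - p x ≤ c} with hA
  have hup : ∀ b ∈ A, ∀ x, x < u → b ≤ x → x ∈ A := by
    rintro b ⟨hb1, hb2, hb3⟩ x hx hxb
    exact ⟨lt_of_lt_of_le hb1 hxb, hx, by linarith [dnsm h hb1.le hxb hx.le]⟩
  set M : Set ℝ := {m | m ∈ A ∧ ∀ a ∈ A, m ≤ a} with hMdef
  have hM : M.Subsingleton := fun a ha b hb => le_antisymm (ha.2 b hb.1) (hb.2 a ha.1)
  set Q : Set ℚ := {q | (q : ℝ) ∈ A} with hQ
  have hsub : A ⊆ M ∪ ⋃ q ∈ Q, Ioo (q : ℝ) u := by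
    intro x hx
    by_cases hm : ∀ a ∈ A, x ≤ a
    · exact Or.inl ⟨hx, hm⟩
    · push Not at hm
      obtain ⟨a, ha, hxa⟩ := hm
      obtain ⟨q, hq1, hq2⟩ := exists_rat_btwn hxa
      refine Or.inr (Set.mem_biUnion (x := q) ?_ ⟨hq2, hx.2.1⟩)
      exact hup a ha _ (hq2.trans hx.2.1) hq1.le
  set m : Measure ℝ := volume.withDensity (fun x => ENNReal.ofReal (f x)) with hm
  have hmM : m M = 0 := by
    have h0 : volume M = 0 := hM.measure_zero volume
    exact withDensity_absolutelyContinuous _ _ h0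
  have hmQ : m (⋃ q ∈ Q, Ioo (q : ℝ) u) ≤ ENNReal.ofReal c := by
    rw [measure_biUnion_eq_iSup (Set.to_countable Q)]
    · refine iSup₂_le fun q hq => ?_
      rw [hm, withDensity_apply _ measurableSet_Ioo,
        dns_lint h (show l ≤ (q : ℝ) from hq.1.le) hq.2.1.le le_rfl]
      exact ENNReal.ofReal_le_ofReal hq.2.2
    · intro q hq q' hq'
      refine ⟨min q q', ?_, ?_, ?_⟩
      · rcases min_cases q q' with e | e
        · rw [e.1]; exact hq
        · rw [e.1]; exact hq'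
      · exact Ioo_subset_Ioo_left (by exact_mod_cast min_le_left q q')
      · exact Ioo_subset_Ioo_left (by exact_mod_cast min_le_right q q')
  calc ∫⁻ x in A, ENNReal.ofReal (f x) ≤ m A := withDensity_apply_le _ _
    _ ≤ m (M ∪ ⋃ q ∈ Q, Ioo (q : ℝ) u) := measure_mono hsub
    _ ≤ m M + m (⋃ q ∈ Q, Ioo (q : ℝ) u) := measure_union_le _ _
    _ ≤ ENNReal.ofReal c := by rw [hmM, zero_add]; exact hmQ

/-- the zones are measurable -/
theorem zone_meas {f p : ℝ → ℝ} {l u : ℝ} (h : Dns f p l u) (c : ℝ) :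
    MeasurableSet {x | l < x ∧ x < u ∧ p x - p l ≤ c} ∧
      MeasurableSet {x | l < x ∧ x < u ∧ p u - p x ≤ c} := by
  constructor
  · refine Set.OrdConnected.measurableSet ⟨?_⟩
    rintro a ⟨ha1, ha2, ha3⟩ b ⟨hb1, hb2, hb3⟩ x ⟨hx1, hx2⟩
    refine ⟨lt_of_lt_of_le ha1 hx1, lt_of_le_of_lt hx2 hb2, ?_⟩
    linarith [dnsm h (ha1.le.trans hx1) hx2 hb2.le]
  · refine Set.OrdConnected.measurableSet ⟨?_⟩
    rintro a ⟨ha1, ha2, ha3⟩ b ⟨hb1, hb2, hb3⟩ x ⟨hx1, hx2⟩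
    refine ⟨lt_of_lt_of_le ha1 hx1, lt_of_le_of_lt hx2 hb2, ?_⟩
    linarith [dnsm h ha1.le hx1 (hx2.trans hb2.le)]

section
variable {n : ℕ} {S : Surf n} {t : ℝ}

theorem sp_I (hp : T_PART) : Sp S t (S.InI t) where
  meas s := measurableSet_Ioo
  uniq s s' x h h1 h2 := S.entry_unique h h1 h2
  sub s x h := by
    obtain ⟨-, h2, h3, -, -⟩ := hp n S t
    have a := (h2 s x).1 (Or.inl h)
    have b := h3 s
    exact ⟨lt_of_le_of_lt b.1 a.1, lt_of_lt_of_le a.2 b.2.2⟩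
  ex i := by
    obtain ⟨h1, -, -, -, -⟩ := hp n S t
    filter_upwards [h1 i] with x hx a b
    exact (hx a b).1

theorem sp_J (hp : T_PART) : Sp S t (S.InJ t) where
  meas s := measurableSet_Ioo
  uniq s s' x h h1 h2 := S.exit_unique h h1 h2
  sub s x h := by
    obtain ⟨-, h2, h3, -, -⟩ := hp n S t
    have a := (h2 s x).1 (Or.inr h)
    have b := h3 s
    exact ⟨lt_of_le_of_lt b.1 a.1, lt_of_lt_of_le a.2 b.2.2⟩
  ex i := by
    obtain ⟨h1, -, -, -, -⟩ := hp n S t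
    filter_upwards [h1 i] with x hx a b
    exact (hx a b).2

theorem f_eq {f : Fin n → ℝ → ℝ} (hLD : S.LD t f) (s : Side n) :
    ∀ᵐ x : ℝ, (S.InI t s x ∨ S.InJ t s x) →
      f s.1 x = S.a s * f (S.gl s).1 (S.mv t s x) := by
  filter_upwards [hLD.glue s, ae_mv (t := t) s (hLD.glue (S.gl s))] with x h1 h2 hx
  have ha := S.a_pos s
  rcases hx with h | h
  · have e := h2 ((S.inJ_gl_iff t s x).2 h)
    rw [S.gl_gl, S.mv_gl, S.a_gl, div_inv_eq_mul] at e
    rw [e, mul_comm]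
  · have e := h1 h
    rw [e]
    field_simp

theorem ae_mw (w : Fin n → ℝ → ENNReal) (hw : ∀ i, Measurable (w i)) {D : Set (Fin n × ℝ)}
    (hD : MeasurableSet D)
    (h : ∀ i, ∀ᵐ x : ℝ, S.xl t i < x → x < S.xr t i → (i, x) ∈ D) :
    ∀ᵐ p ∂(mw S t w), p ∈ D := by
  show mw S t w {p | ¬ p ∈ D} = 0
  have e : {p : Fin n × ℝ | ¬ p ∈ D} = Dᶜ := rfl
  rw [e, ← lintegral_indicator_one hD.compl,
    lint_mw S t w hw _ (measurable_one.indicator hD.compl)]
  refine Finset.sum_eq_zero fun i _ => ?_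
  have h1 : ∫⁻ x in Ioo (S.xl t i) (S.xr t i), w i x * Dᶜ.indicator 1 (i, x) =
      ∫⁻ x in Ioo (S.xl t i) (S.xr t i), 0 := by
    refine setLIntegral_congr_fun_ae measurableSet_Ioo ?_
    filter_upwards [h i] with x hx hxi
    have : (i, x) ∉ Dᶜ := fun hc => hc (hx hxi.1 hxi.2)
    rw [Set.indicator_of_notMem this, mul_zero]
  rw [h1, lintegral_zero]

theorem ae_of_mw {P : Fin n × ℝ → Prop} (h : ∀ᵐ p ∂(mw S t fun _ _ => 1), P p) (i : Fin n) :
    ∀ᵐ x : ℝ, S.xl t i < x → x < S.xr t i → P (i, x) := by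
  unfold mw at h
  have h1 := (Measure.ae_sum_iff.1 h) i
  have h2 := ae_of_ae_map measurable_prodMk_left.aemeasurable h1
  have e : (volume.restrict (Ioo (S.xl t i) (S.xr t i))).withDensity (fun _ => 1) =
      volume.restrict (Ioo (S.xl t i) (S.xr t i)) := withDensity_one
  rw [e, ae_restrict_iff' measurableSet_Ioo] at h2
  filter_upwards [h2] with x hx a b
  exact hx ⟨a, b⟩

/-- iterates of nonsingular maps -/
theorem ae_iter {Ω : Type} [MeasurableSpace Ω] {m : Measure Ω} {T T' : Ω → Ω} {D : Set Ω}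
    (hT : Measure.QuasiMeasurePreserving T m m) (hT' : Measure.QuasiMeasurePreserving T' m m)
    (hD : ∀ᵐ p ∂m, p ∈ D) : ∀ᵐ p ∂m, ∀ k : ℕ, T^[k] p ∈ D ∧ T'^[k] p ∈ D := by
  rw [ae_all_iff]
  intro k
  filter_upwards [(hT.iterate k).ae hD, (hT'.iterate k).ae hD] with p h1 h2
  exact ⟨h1, h2⟩

end

end Pool.Agent.H77.BQ
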